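import Pool.Agent.W500.CS.Stm
set_option autoImplicit false

namespace Pool.Agent.W409.CQ.EV

open Pool.Agent.W500.CS Set Filter Topology

theorem sc1_cont {a b : ℝ} {v : ℝ → ℝ} (h : SC1 a b v) : ContinuousOn v (Ioo a b) := by
  intro t ht
  obtain ⟨ε, hε, C, hc⟩ := h t ht
  have h1 : ContinuousOn (fun y => v y + C * y ^ 2) (Ioo (t - ε) (t + ε)) :=
    hc.continuousOn isOpen_Ioo
  have h2 : ContinuousAt (fun y => v y + C * y ^ 2) t :=
    h1.continuousAt (Ioo_mem_nhds (by linarith) (by linarith))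
  have h3 : ContinuousAt (fun y => (v y + C * y ^ 2) - C * y ^ 2) t := by
    apply h2.sub
    fun_prop
  have h4 : (fun y => (v y + C * y ^ 2) - C * y ^ 2) = v := by
    funext y
    ring
  rw [h4] at h3
  exact h3.continuousWithinAt

theorem hasDeriv_of_right {c d t : ℝ} {v g : ℝ → ℝ} (ht : t ∈ Ioo c d)
    (hv : ContinuousOn v (Ioo c d)) (hg : ContinuousOn g (Ioo c d))
    (hd : ∀ x ∈ Ioo c d, HasDerivWithinAt v (g x) (Ioi x) x) : HasDerivAt v (g t) t := by
  obtain ⟨a, ha1, ha2⟩ := exists_between ht.1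
  have hsub : ∀ x ∈ Ioo a d, uIcc a x ⊆ Ioo c d := by
    intro x hx y hy
    rw [uIcc_of_le hx.1.le] at hy
    exact ⟨lt_of_lt_of_le ha1 hy.1, lt_of_le_of_lt hy.2 hx.2⟩
  have hint : ∀ x ∈ Ioo a d, IntervalIntegrable g MeasureTheory.volume a x := by
    intro x hx
    exact (hg.mono (hsub x hx)).intervalIntegrable
  have heq : ∀ x ∈ Ioo a d, v x = v a + ∫ y in a..x, g y := by
    intro x hx
    have h1 := intervalIntegral.integral_eq_sub_of_hasDeriv_right (hv.mono (hsub x hx))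
      (f' := g) (by
        intro y hy
        rw [min_eq_left hx.1.le, max_eq_right hx.1.le] at hy
        exact hd y ⟨lt_trans ha1 hy.1, lt_trans hy.2 hx.2⟩) (hint x hx)
    rw [h1]
    ring
  have h1 : HasDerivAt (fun u => ∫ x in a..u, g x) (g t) t := by
    apply intervalIntegral.integral_hasDerivAt_right (hint t ⟨ha2, ht.2⟩)
    · exact hg.stronglyMeasurableAtFilter isOpen_Ioo t ht
    · exact hg.continuousAt (Ioo_mem_nhds ht.1 ht.2)
  have h2 : HasDerivAt (fun u => v a + ∫ x in a..u, g x) (g t) t := by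
    exact h1.const_add (v a)
  apply h2.congr_of_eventuallyEq
  filter_upwards [Ioo_mem_nhds ha2 ht.2] with x hx
  exact heq x hx

theorem main : S_MONO → S_EV := by
  intro hM r b v ψ hb hsc hcont hsep hder
  have hm : b / 2 ∈ Ioo 0 b := ⟨by linarith, by linarith⟩
  have : Nonempty (Fin r) := ⟨(hder _ hm).choose⟩
  choose! i hi using hder
  -- transport of comparisons
  have htr : ∀ k l : Fin r, ∀ t ∈ Ioo 0 b, ψ k t ≤ ψ l t → ψ k (b / 2) ≤ ψ l (b / 2) := by
    intro k l t ht h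
    rcases hsep k l with h1 | h1 | h1
    · exact (h1 _ hm).le
    · exact (h1 _ hm).le
    · exact absurd (h1 t ht) (not_lt.mpr h)
  have heq : ∀ k l : Fin r, ψ k (b / 2) = ψ l (b / 2) → ∀ t ∈ Ioo 0 b, ψ k t = ψ l t := by
    intro k l h t ht
    rcases hsep k l with h1 | h1 | h1
    · exact h1 t ht
    · exact absurd h (ne_of_lt (h1 _ hm))
    · exact absurd h (ne_of_gt (h1 _ hm))
  have hfin : ((fun t => ψ (i t) (b / 2)) '' Ioo 0 b).Finite := by
    apply (Set.finite_range (fun k : Fin r => ψ k (b / 2))).subset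
    rintro x ⟨t, -, rfl⟩
    exact ⟨i t, rfl⟩
  obtain ⟨y, ⟨t0, ht0, rfl⟩, hmin⟩ := hfin.exists_minimal (Set.Nonempty.image _ ⟨_, hm⟩)
  have hconst : ∀ t ∈ Ioo 0 b, t ≤ t0 → ψ (i t) (b / 2) = ψ (i t0) (b / 2) := by
    intro t ht hle
    have h1 := hM r 0 b v ψ hsc hcont hsep (fun t ht => ⟨i t, hi t ht⟩) t t0 ht.1 hle ht0.2
      (i t) (i t0) (hi t ht) (hi t0 ht0)
    have h2 := htr _ _ t0 ht0 h1
    have h3 := hmin ⟨t, ht, rfl⟩ h2
    exact le_antisymm h2 h3
  refine ⟨i t0, t0, ht0.1, ht0.2.le, ?_⟩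
  intro t ht
  have hsub : Ioo 0 t0 ⊆ Ioo 0 b := fun x hx => ⟨hx.1, lt_trans hx.2 ht0.2⟩
  apply hasDeriv_of_right ht ((sc1_cont hsc).mono hsub) ((hcont _).mono hsub)
  intro x hx
  have h1 := hi x (hsub hx)
  rw [heq _ _ (hconst x (hsub hx) hx.2.le) x (hsub hx)] at h1
  exact h1

end Pool.Agent.W409.CQ.EV
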